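import Pool.Agent.Helper38.Curl.Rep

open MeasureTheory Set Filter Topology Metric
open scoped ContDiff RealInnerProductSpace
open Pool.Agent.Helper38.Curl

namespace Pool.Agent.Helper80.Curl

theorem exists_balls {O : Set E} (hO : IsOpen O) (hf : volume O ≠ ⊤) {ε : ENNReal} (hε : 0 < ε) :
    ∃ t : Finset (E × ℝ), (∀ p ∈ t, 0 < p.2) ∧ (∀ p ∈ t, closedBall p.1 p.2 ⊆ O) ∧
      ((t : Set (E × ℝ)).PairwiseDisjoint fun p => closedBall p.1 p.2) ∧
      volume (O \ ⋃ p ∈ t, closedBall p.1 p.2) < ε := by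
  classical
  obtain ⟨t, htc, -, htf, ht0, htd⟩ := Besicovitch.exists_disjoint_closedBall_covering_ae_aux
    (volume : Measure E) (fun x => {r : ℝ | 0 < r ∧ closedBall x r ⊆ O}) O (by
      intro x hx δ hδ
      obtain ⟨r, hr, hb⟩ := Metric.nhds_basis_closedBall.mem_iff.1 (hO.mem_nhds hx)
      refine ⟨min r (δ / 2), ⟨lt_min hr (half_pos hδ),
        (closedBall_subset_closedBall (min_le_left _ _)).trans hb⟩, lt_min hr (half_pos hδ), ?_⟩
      exact lt_of_le_of_lt (min_le_right _ _) (half_lt_self hδ))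
  have : Countable t := htc
  have hdisj : Pairwise (Function.onFun Disjoint (fun p : t => closedBall p.1.1 p.1.2)) := by
    intro p q hpq
    exact htd p.2 q.2 (fun h => hpq (Subtype.ext h))
  have hsum : ∑' p : t, volume (closedBall p.1.1 p.1.2) ≠ ⊤ := by
    rw [← measure_iUnion hdisj (fun p => measurableSet_closedBall)]
    exact ne_top_of_le_ne_top hf (measure_mono (iUnion_subset fun p => (htf p.1 p.2).2))
  have hlim := ENNReal.tendsto_tsum_compl_atTop_zero hsum
  obtain ⟨s, hs⟩ := (hlim.eventually (gt_mem_nhds hε)).exists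
  refine ⟨s.map (Function.Embedding.subtype _), ?_, ?_, ?_, ?_⟩
  · intro p hp
    simp only [Finset.mem_map] at hp
    obtain ⟨q, -, rfl⟩ := hp
    exact (htf q.1 q.2).1
  · intro p hp
    simp only [Finset.mem_map] at hp
    obtain ⟨q, -, rfl⟩ := hp
    exact (htf q.1 q.2).2
  · apply htd.subset
    intro p hp
    simp only [Finset.coe_map, mem_image] at hp
    obtain ⟨q, -, rfl⟩ := hp
    exact q.2
  · have hsub : O \ ⋃ p ∈ s.map (Function.Embedding.subtype _), closedBall (p : E × ℝ).1 p.2 ⊆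
        (O \ ⋃ (p : E × ℝ) (_ : p ∈ t), closedBall p.1 p.2) ∪
          ⋃ p : {x : t // x ∉ s}, closedBall p.1.1.1 p.1.1.2 := by
      rintro x ⟨hxO, hx⟩
      by_cases h : x ∈ ⋃ (p : E × ℝ) (_ : p ∈ t), closedBall p.1 p.2
      · right
        simp only [mem_iUnion] at h ⊢
        obtain ⟨p, hp, hxp⟩ := h
        refine ⟨⟨⟨p, hp⟩, fun hps => hx ?_⟩, hxp⟩
        simp only [mem_iUnion]
        exact ⟨p, Finset.mem_map.2 ⟨⟨p, hp⟩, hps, rfl⟩, hxp⟩
      · exact Or.inl ⟨hxO, h⟩
    calc volume (O \ ⋃ p ∈ s.map (Function.Embedding.subtype _), closedBall (p : E × ℝ).1 p.2)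
        ≤ volume ((O \ ⋃ (p : E × ℝ) (_ : p ∈ t), closedBall p.1 p.2) ∪
          ⋃ p : {x : t // x ∉ s}, closedBall p.1.1.1 p.1.1.2) := measure_mono hsub
      _ ≤ volume (O \ ⋃ (p : E × ℝ) (_ : p ∈ t), closedBall p.1 p.2) +
          volume (⋃ p : {x : t // x ∉ s}, closedBall p.1.1.1 p.1.1.2) := measure_union_le _ _
      _ ≤ 0 + ∑' p : {x : t // x ∉ s}, volume (closedBall p.1.1.1 p.1.1.2) := by
          gcongr
          · exact ht0.le
          · exact measure_iUnion_le _
      _ < ε := by rw [zero_add]; exact hs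

end Pool.Agent.Helper80.Curl
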