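import Pool.Agent.Helper38.Curl.Rep
import Pool.Agent.Helper94.Curl.MollA

open MeasureTheory Set Filter Topology Metric
open scoped ContDiff RealInnerProductSpace
open Pool.Agent.Helper38.Curl
open Pool.Agent.Helper94.Curl (kap_contDiff kap_nonneg kap_pos kap_eq_zero integral_kap)

namespace Pool.Agent.Helper80.Curl


theorem strong_max_local {U : Set E} {F V : E → E}
    (hF : ContinuousOn F U) (hae : ∀ᵐ x, x ∈ U → F x = V x) {x : E} {r : ℝ} (hr : 0 < r)
    (hb : closedBall x r ⊆ U)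
    (hm : F x = mol r V x) {ℓ : ℝ}
    (hle : ∀ x ∈ U, ‖F x‖ ≤ ℓ) (heq : ‖F x‖ = ℓ) :
    ∀ y ∈ ball x r, F y = F x := by
  set c := F x with hc
  have hk0 : ∀ y, 0 ≤ kap r (x - y) := fun y => kap_nonneg hr _
  have hkz : ∀ y, y ∉ ball x r → kap r (x - y) = 0 := by
    intro y hy
    apply kap_eq_zero hr
    rw [mem_ball, dist_comm, dist_eq_norm] at hy
    exact not_lt.mp hy
  have hkc : Continuous (fun y => kap r (x - y)) :=
    (kap_contDiff hr).continuous.comp (continuous_const.sub continuous_id)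
  have hkint : ∫ y, kap r (x - y) = 1 := by
    rw [← integral_kap hr]
    exact integral_sub_left_eq_self (fun y => kap r y) volume x
  have hkI : Integrable (fun y => kap r (x - y)) := by
    apply hkc.integrable_of_hasCompactSupport
    apply HasCompactSupport.of_support_subset_isCompact (isCompact_closedBall x r)
    intro y hy
    by_contra h
    exact hy (hkz y (fun h' => h (ball_subset_closedBall h')))
  have hkF : Integrable (fun y => kap r (x - y) • F y) := by
    have h1 : IntegrableOn (fun y => kap r (x - y) • F y) (closedBall x r) :=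
      (hkc.continuousOn.smul (hF.mono hb)).integrableOn_compact (isCompact_closedBall x r)
    rw [integrableOn_iff_integrable_of_support_subset] at h1
    · exact h1
    · intro y hy
      by_contra h
      apply hy
      simp [hkz y (fun h' => h (ball_subset_closedBall h'))]
  have e1 : c = ∫ y, kap r (x - y) • F y := by
    rw [hm, mol]
    apply integral_congr_ae
    filter_upwards [hae] with y hy
    by_cases h : y ∈ ball x r
    · rw [hy (hb (ball_subset_closedBall h))]
    · simp [hkz y h]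
  have hcc : ⟪c, c⟫ = ℓ ^ 2 := by rw [real_inner_self_eq_norm_sq, heq]
  have e2 : ∫ y, kap r (x - y) * ⟪c, F y⟫ = ℓ ^ 2 := by
    have : ∫ y, ⟪c, kap r (x - y) • F y⟫ = ⟪c, c⟫ := by
      rw [integral_inner hkF, ← e1]
    rw [← hcc, ← this]
    congr 1
    ext y
    rw [real_inner_smul_right]
  have hI2 : Integrable (fun y => kap r (x - y) * ⟪c, F y⟫) := by
    have := hkF.const_inner (𝕜 := ℝ) c
    refine this.congr (ae_of_all _ fun y => ?_)
    simp only [real_inner_smul_right]
  have e3 : ∫ y, kap r (x - y) * (ℓ ^ 2 - ⟪c, F y⟫) = 0 := by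
    have : (fun y => kap r (x - y) * (ℓ ^ 2 - ⟪c, F y⟫)) =
        fun y => ℓ ^ 2 * kap r (x - y) - kap r (x - y) * ⟪c, F y⟫ := by
      ext y; ring
    rw [this, integral_sub (hkI.const_mul _) hI2, integral_const_mul, hkint, e2]
    ring
  have hI3 : Integrable (fun y => kap r (x - y) * (ℓ ^ 2 - ⟪c, F y⟫)) := by
    have : (fun y => kap r (x - y) * (ℓ ^ 2 - ⟪c, F y⟫)) =
        fun y => ℓ ^ 2 * kap r (x - y) - kap r (x - y) * ⟪c, F y⟫ := by
      ext y; ring
    rw [this]
    exact (hkI.const_mul _).sub hI2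
  have hℓ : 0 ≤ ℓ := heq ▸ norm_nonneg _
  have hin : ∀ y ∈ U, ⟪c, F y⟫ ≤ ℓ ^ 2 := by
    intro y hy
    calc ⟪c, F y⟫ ≤ ‖c‖ * ‖F y‖ := real_inner_le_norm _ _
      _ ≤ ℓ * ℓ := by rw [heq]; exact mul_le_mul_of_nonneg_left (hle y hy) hℓ
      _ = ℓ ^ 2 := by ring
  have hnn : 0 ≤ fun y => kap r (x - y) * (ℓ ^ 2 - ⟪c, F y⟫) := by
    intro y
    simp only [Pi.zero_apply]
    by_cases h : y ∈ ball x r
    · exact mul_nonneg (hk0 y) (sub_nonneg.2 (hin y (hb (ball_subset_closedBall h))))
    · simp [hkz y h]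
  have hz := (integral_eq_zero_iff_of_nonneg hnn hI3).1 e3
  have hz2 : EqOn (fun y => kap r (x - y) * (ℓ ^ 2 - ⟪c, F y⟫)) (fun _ => (0 : ℝ)) (ball x r) := by
    apply Measure.eqOn_open_of_ae_eq (μ := (volume : Measure E))
    · exact ae_restrict_of_ae hz
    · exact isOpen_ball
    · exact hkc.continuousOn.mul (continuousOn_const.sub
        (continuousOn_const.inner (hF.mono (ball_subset_closedBall.trans hb))))
    · exact continuousOn_const
  intro y hy
  have h1 := hz2 hy
  simp only at h1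
  have hkp : 0 < kap r (x - y) := by
    apply kap_pos
    rw [← dist_eq_norm, dist_comm]
    exact hy
  have h2 : ⟪c, F y⟫ = ℓ ^ 2 := by
    rcases mul_eq_zero.1 h1 with h | h
    · exact absurd h hkp.ne'
    · linarith
  have h3 : ‖F y - c‖ ^ 2 ≤ 0 := by
    rw [norm_sub_sq_real, real_inner_comm, h2, heq]
    have := hle y (hb (ball_subset_closedBall hy))
    have : ‖F y‖ ^ 2 ≤ ℓ ^ 2 := pow_le_pow_left₀ (norm_nonneg _) this 2
    linarith
  have h4 : ‖F y - c‖ = 0 := by
    have := sq_nonneg ‖F y - c‖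
    exact pow_eq_zero_iff (two_ne_zero) |>.1 (le_antisymm h3 this)
  exact sub_eq_zero.1 (norm_eq_zero.1 h4)

theorem strong_max {U : Set E} (hU : IsOpen U) (hc : IsPreconnected U) {F V : E → E}
    (hF : ContinuousOn F U) (hae : ∀ᵐ x, x ∈ U → F x = V x)
    (hm : ∀ x r, 0 < r → closedBall x r ⊆ U → F x = mol r V x) {ℓ : ℝ}
    (hle : ∀ x ∈ U, ‖F x‖ ≤ ℓ) {x₀ : E} (hx₀ : x₀ ∈ U) (heq : ‖F x₀‖ = ℓ) :
    ∀ x ∈ U, F x = F x₀ := by
  have hopen : IsOpen {x | x ∈ U ∧ F x = F x₀} := by
    rw [Metric.isOpen_iff]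
    rintro x ⟨hx, hxe⟩
    obtain ⟨r, hr, hb⟩ := Metric.nhds_basis_closedBall.mem_iff.1 (hU.mem_nhds hx)
    refine ⟨r, hr, fun y hy => ⟨hb (ball_subset_closedBall hy), ?_⟩⟩
    rw [← hxe]
    exact strong_max_local hF hae hr hb (hm x r hr hb) hle (by rw [hxe, heq]) y hy
  have hsub : U ⊆ {x | x ∈ U ∧ F x = F x₀} := by
    apply hc.subset_of_closure_inter_subset hopen ⟨x₀, hx₀, hx₀, rfl⟩
    rintro x ⟨hxc, hxU⟩
    refine ⟨hxU, ?_⟩
    have hcont : ContinuousAt F x := hF.continuousAt (hU.mem_nhds hxU)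
    have hcl : x ∈ closure {x | F x = F x₀} := closure_mono (fun y hy => hy.2) hxc
    have : F x ∈ closure {F x₀} := by
      have := hcont.continuousWithinAt (s := {x | F x = F x₀}) |>.mem_closure_image hcl
      refine closure_mono ?_ this
      rintro _ ⟨y, hy, rfl⟩
      exact hy
    simpa using this
  exact fun x hx => (hsub hx).2

end Pool.Agent.Helper80.Curl
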